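import Mathlib

/-!
# The number `√2 - 1`, its convergents, and the eigenvalue lemma
-/

open Filter Topology

namespace H83WM

/-- `bt = √2 - 1` -/
noncomputable def bt : ℝ := Real.sqrt 2 - 1

/-- denominators of the convergents of `√2 - 1` -/
def q : ℕ → ℤ
  | 0 => 1
  | 1 => 2
  | (n + 2) => 2 * q (n + 1) + q n

/-- numerators -/
def p : ℕ → ℤ
  | 0 => 0
  | 1 => 1
  | (n + 2) => 2 * p (n + 1) + p n

theorem bt_sq : bt ^ 2 + 2 * bt = 1 := by
  unfold bt
  have := Real.sq_sqrt (show (0 : ℝ) ≤ 2 by norm_num)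
  nlinarith

theorem bt_pos : 0 < bt := by
  unfold bt
  have : 1 < Real.sqrt 2 := by
    rw [Real.lt_sqrt (by norm_num)]; norm_num
  linarith

theorem bt_lt : 2 * bt < 1 := by
  have := bt_sq
  have h := bt_pos
  nlinarith [sq_pos_of_pos h]

theorem bt_irr : Irrational bt := by
  unfold bt
  have := irrational_sqrt_two.sub_natCast 1
  simpa using this

/-- the errors `q_k bt - p_k` -/
noncomputable def s (k : ℕ) : ℝ := bt * (-bt) ^ k

theorem s_succ (k : ℕ) : s (k + 1) = -bt * s k := by
  simp only [s, pow_succ]; ring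

theorem s_rec (k : ℕ) : s (k + 2) = 2 * s (k + 1) + s k := by
  rw [s_succ (k + 1), s_succ k]
  have := bt_sq
  have h3 : bt * bt = 1 - 2 * bt := by nlinarith
  calc -bt * (-bt * s k) = (bt * bt) * s k := by ring
    _ = 2 * (-bt * s k) + s k := by rw [h3]; ring

theorem s_eq (k : ℕ) : s k = q k * bt - p k := by
  induction k using Nat.strong_induction_on with
  | _ k ih =>
    match k with
    | 0 => simp [s, q, p]
    | 1 =>
      have := bt_sq
      simp only [s, q, p]
      push_cast
      nlinarith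
    | (k + 2) =>
      have h1 := ih (k + 1) (by omega)
      have h0 := ih k (by omega)
      rw [s_rec, h1, h0]
      simp only [q, p]
      push_cast
      ring

theorem s_ne (k : ℕ) : s k ≠ 0 := by
  unfold s
  have := bt_pos
  exact mul_ne_zero this.ne' (pow_ne_zero _ (neg_ne_zero.2 this.ne'))

/-- `s k * (q k * s (k+1) ...)`: the determinant `q_k p_{k+1} - q_{k+1} p_k = (-1)^k` -/
theorem det (k : ℕ) : q (k + 1) * p k - q k * p (k + 1) = -(-1) ^ k := by
  induction k with
  | zero => simp [q, p]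
  | succ k ih =>
    have h1 : q (k + 1 + 1) = 2 * q (k + 1) + q k := rfl
    have h2 : p (k + 1 + 1) = 2 * p (k + 1) + p k := rfl
    rw [h1, h2, pow_succ]
    linarith

/-- if `q_k θ` is close to integers then `θ ∈ ℤ + ℤ bt` -/
theorem exists_int {θ : ℝ} {N : ℕ → ℤ} (h : Tendsto (fun k => q k * θ - N k) atTop (𝓝 0)) :
    ∃ l m : ℤ, θ = l + m * bt := by
  set δ : ℕ → ℝ := fun k => q k * θ - N k with hδ
  -- the integers `N` eventually satisfy the recursion
  have h1 : Tendsto (fun k => δ (k + 2) - 2 * δ (k + 1) - δ k) atTop (𝓝 0) := by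
    have a := (tendsto_add_atTop_iff_nat 2).2 h
    have b := (tendsto_add_atTop_iff_nat 1).2 h
    have := (a.sub (b.const_mul 2)).sub h
    simpa using this
  have h2 : ∀ k, δ (k + 2) - 2 * δ (k + 1) - δ k =
      -((N (k + 2) - 2 * N (k + 1) - N k : ℤ) : ℝ) := by
    intro k
    have : q (k + 2) = 2 * q (k + 1) + q k := rfl
    simp only [hδ, this]
    push_cast
    ring
  have h3 : ∀ᶠ k in atTop, δ (k + 2) = 2 * δ (k + 1) + δ k := by
    have := (Metric.tendsto_nhds.1 h1) 1 one_pos
    filter_upwards [this] with k hk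
    rw [Real.dist_eq, sub_zero, h2, abs_neg] at hk
    have h4 : |N (k + 2) - 2 * N (k + 1) - N k| < 1 := by exact_mod_cast hk
    have h5 : N (k + 2) - 2 * N (k + 1) - N k = 0 := Int.abs_lt_one_iff.1 h4
    have h6 := h2 k
    rw [h5] at h6
    push_cast at h6
    linarith
  obtain ⟨k₀, hk₀⟩ := eventually_atTop.1 h3
  -- `x_k = δ_{k+1} + bt δ_k` is multiplied by `2 + bt > 1`
  have hb := bt_pos
  have hx : ∀ j, δ (k₀ + j + 1) + bt * δ (k₀ + j) =
      (2 + bt) ^ j * (δ (k₀ + 1) + bt * δ k₀) := by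
    intro j
    induction j with
    | zero => simp
    | succ j ih =>
      have e1 := hk₀ (k₀ + j) (by omega)
      have e2 : δ (k₀ + (j + 1) + 1) = δ (k₀ + j + 2) := by congr 1
      have e3 : δ (k₀ + (j + 1)) = δ (k₀ + j + 1) := by congr 1
      rw [e2, e3, e1, pow_succ]
      have h3 : bt * bt = 1 - 2 * bt := by have := bt_sq; nlinarith
      calc 2 * δ (k₀ + j + 1) + δ (k₀ + j) + bt * δ (k₀ + j + 1)
          = (2 + bt) * δ (k₀ + j + 1) + (2 * bt + bt * bt) * δ (k₀ + j) := by rw [h3]; ring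
        _ = (2 + bt) * (δ (k₀ + j + 1) + bt * δ (k₀ + j)) := by ring
        _ = _ := by rw [ih]; ring
  have hx0 : δ (k₀ + 1) + bt * δ k₀ = 0 := by
    by_contra hne
    have ht : Tendsto (fun j => δ (k₀ + j + 1) + bt * δ (k₀ + j)) atTop (𝓝 0) := by
      have a : Tendsto (fun j => δ (j + (k₀ + 1))) atTop (𝓝 0) :=
        (tendsto_add_atTop_iff_nat (k₀ + 1)).2 h
      have b : Tendsto (fun j => δ (j + k₀)) atTop (𝓝 0) := (tendsto_add_atTop_iff_nat k₀).2 h
      have := a.add (b.const_mul bt)
      simp only [mul_zero, add_zero] at this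
      refine this.congr fun j => ?_
      rw [show j + (k₀ + 1) = k₀ + j + 1 by omega, show j + k₀ = k₀ + j by omega]
    have ht2 : Tendsto (fun j => |(2 + bt) ^ j * (δ (k₀ + 1) + bt * δ k₀)|) atTop (𝓝 0) := by
      have := ht.abs
      rw [abs_zero] at this
      refine this.congr fun j => ?_
      rw [hx j]
    have hpos : 0 < |δ (k₀ + 1) + bt * δ k₀| := abs_pos.2 hne
    have := (Metric.tendsto_nhds.1 ht2) _ hpos
    obtain ⟨j, hj⟩ := this.exists
    rw [Real.dist_eq, sub_zero, abs_abs, abs_mul] at hj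
    have : 1 ≤ |(2 + bt) ^ j| := by
      rw [abs_pow, abs_of_pos (by linarith)]
      exact one_le_pow₀ (by linarith)
    nlinarith
  -- the integer `D`
  set k := k₀ with hk
  set D : ℤ := q k * N (k + 1) - q (k + 1) * N k with hD
  have hδ1 : δ (k + 1) = -bt * δ k := by linarith
  have hD1 : (D : ℝ) = δ k * (bt * q k + q (k + 1)) := by
    have e1 : (N k : ℝ) = q k * θ - δ k := by simp only [hδ]; ring
    have e2 : (N (k + 1) : ℝ) = q (k + 1) * θ + bt * δ k := by
      have : (N (k + 1) : ℝ) = q (k + 1) * θ - δ (k + 1) := by simp only [hδ]; ring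
      rw [this, hδ1]; ring
    simp only [hD]
    push_cast
    rw [e1, e2]; ring
  -- `s k * (bt q_k + q_{k+1}) = (-1)^k`
  have hs1 : s k * (bt * q k + q (k + 1)) = (-1) ^ k := by
    have e1 := s_eq k
    have e2 := s_eq (k + 1)
    have e3 := s_succ k
    have e4 : s (k + 1) * q k = -bt * s k * q k := by rw [e3]
    have e5 : s k * q (k + 1) - s (k + 1) * q k = (-1) ^ k := by
      rw [e1, e2]
      have := det k
      have h5 : ((q (k + 1) * p k - q k * p (k + 1) : ℤ) : ℝ) = ((-(-1) ^ k : ℤ) : ℝ) := by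
        rw [this]
      push_cast at h5
      linarith
    linarith
  have hsk := s_ne k
  set m : ℤ := (-1) ^ k * D with hm
  have hδm : δ k = m * s k := by
    have h5 : (bt * q k + q (k + 1)) ≠ 0 := by
      intro h0
      rw [h0, mul_zero] at hs1
      exact absurd hs1.symm (pow_ne_zero _ (by norm_num))
    have h6 : ((-1 : ℝ) ^ k) * (-1) ^ k = 1 := by rw [← mul_pow]; norm_num
    apply mul_right_cancel₀ h5
    rw [← hD1, hm]
    push_cast
    calc (D : ℝ) = ((-1 : ℝ) ^ k * (-1) ^ k) * D := by rw [h6, one_mul]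
      _ = (-1) ^ k * D * (s k * (bt * q k + q (k + 1))) := by rw [hs1]; ring
      _ = _ := by ring
  -- `q_j (θ - m bt)` is an integer for `j = k, k+1`, hence for all smaller `j`
  have hint : ∀ j ≤ k, (∃ a : ℤ, q (k - j) * (θ - m * bt) = a) ∧
      ∃ a : ℤ, q (k - j + 1) * (θ - m * bt) = a := by
    intro j hj
    induction j with
    | zero =>
      constructor
      · refine ⟨N k - m * p k, ?_⟩
        have e1 := s_eq k
        have : q k * θ = N k + δ k := by simp only [hδ]; ring
        simp only [Nat.sub_zero]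
        push_cast
        have e2 : (q k : ℝ) * bt = s k + p k := by linarith
        calc (q k : ℝ) * (θ - m * bt) = q k * θ - m * (q k * bt) := by ring
          _ = N k + δ k - m * (s k + p k) := by rw [this, e2]
          _ = _ := by rw [hδm]; ring
      · refine ⟨N (k + 1) - m * p (k + 1), ?_⟩
        have e1 := s_eq (k + 1)
        have : q (k + 1) * θ = N (k + 1) + δ (k + 1) := by simp only [hδ]; ring
        simp only [Nat.sub_zero]
        push_cast
        have e2 : (q (k + 1) : ℝ) * bt = s (k + 1) + p (k + 1) := by linarith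
        have e3 : δ (k + 1) = m * s (k + 1) := by rw [hδ1, s_succ, hδm]; ring
        calc (q (k + 1) : ℝ) * (θ - m * bt) = q (k + 1) * θ - m * (q (k + 1) * bt) := by ring
          _ = N (k + 1) + δ (k + 1) - m * (s (k + 1) + p (k + 1)) := by rw [this, e2]
          _ = _ := by rw [e3]; ring
    | succ j ih =>
      obtain ⟨⟨a, ha⟩, ⟨b, hb'⟩⟩ := ih (by omega)
      obtain ⟨i, hi⟩ : ∃ i, k - (j + 1) = i := ⟨_, rfl⟩
      have h1 : k - j = i + 1 := by omega
      rw [h1] at ha hb'
      rw [hi]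
      refine ⟨⟨b - 2 * a, ?_⟩, ⟨a, ha⟩⟩
      have : q (i + 1 + 1) = 2 * q (i + 1) + q i := rfl
      rw [this] at hb'
      push_cast at hb' ⊢
      linarith
  obtain ⟨⟨l, hl⟩, -⟩ := hint k le_rfl
  refine ⟨l, m, ?_⟩
  simp only [Nat.sub_self, q] at hl
  push_cast at hl
  linarith

end H83WM
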