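import Mathlib

/-!
# Functions on `{0,1}^ℕ` which are multiplied by constants under flips of coordinates
-/

open MeasureTheory Filter Topology Set

namespace H83WM

abbrev Om := ℕ → Bool

noncomputable def coin : Measure Bool :=
  (1 / 2 : ENNReal) • (Measure.dirac true + Measure.dirac false)

instance : IsProbabilityMeasure coin := by
  constructor
  simp only [coin, Measure.smul_apply, Measure.add_apply, measure_univ, smul_eq_mul]
  rw [one_add_one_eq_two, one_div, ENNReal.inv_mul_cancel (by norm_num) (by norm_num)]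

theorem coin_map : coin.map (fun b => !b) = coin := by
  have h1 : Measure.map (fun b : Bool => !b) (Measure.dirac true) = Measure.dirac false := by
    have := Measure.map_dirac' (f := fun b : Bool => !b) (measurable_of_finite _) true
    simpa using this
  have h2 : Measure.map (fun b : Bool => !b) (Measure.dirac false) = Measure.dirac true := by
    have := Measure.map_dirac' (f := fun b : Bool => !b) (measurable_of_finite _) false
    simpa using this
  unfold coin
  rw [Measure.map_smul, Measure.map_add _ _ (measurable_of_finite _), h1, h2, add_comm]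

noncomputable def P : Measure Om := Measure.infinitePi (fun _ => coin)

instance : IsProbabilityMeasure P := by unfold P; infer_instance

/-- flip of the `k`-th coordinate -/
def fl (k : ℕ) (x : Om) : Om := fun i => if i = k then !(x i) else x i

theorem fl_fl (k : ℕ) (x : Om) : fl k (fl k x) = x := by
  funext i
  by_cases h : i = k <;> simp [fl, h]

theorem fl_same (k : ℕ) (x : Om) : fl k x k = !(x k) := by simp [fl]

theorem fl_ne {k i : ℕ} (h : i ≠ k) (x : Om) : fl k x i = x i := by simp [fl, h]

theorem fl_meas (k : ℕ) : Measurable (fl k) := by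
  refine measurable_pi_iff.2 fun i => ?_
  by_cases h : i = k
  · simp only [fl, h, if_true]
    exact (measurable_from_top (f := fun b : Bool => !b)).comp (measurable_pi_apply k)
  · simp only [fl, h, if_false]
    exact measurable_pi_apply i

def flE (k : ℕ) : Om ≃ᵐ Om where
  toFun := fl k
  invFun := fl k
  left_inv := fl_fl k
  right_inv := fl_fl k
  measurable_toFun := fl_meas k
  measurable_invFun := fl_meas k

theorem map_fl (k : ℕ) : P.map (fl k) = P := by
  have h := Measure.infinitePi_map_pi (X := fun _ : ℕ => Bool) (μ := fun _ => coin)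
    (Y := fun _ : ℕ => Bool) (f := fun i b => if i = k then !b else b)
    (fun i => measurable_from_top)
  have e : (fun (x : Om) (i : ℕ) => (if i = k then !(x i) else x i)) = fl k := rfl
  unfold P
  rw [← e, h]
  congr 1
  funext i
  by_cases hi : i = k
  · simp only [hi, if_true]; exact coin_map
  · simp only [hi, if_false]; exact Measure.map_id

theorem mp_fl (k : ℕ) : MeasurePreserving (fl k) P P := ⟨fl_meas k, map_fl k⟩

theorem meas_coord (k : ℕ) (B : Set Bool) : MeasurableSet {x : Om | x k ∈ B} :=
  (measurable_pi_apply k) (MeasurableSpace.measurableSet_top (s := B))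

theorem flip_int {h : Om → ℂ} {c : ℂ} {k : ℕ} {A : Set Om} (hA : MeasurableSet A)
    (hinv : fl k ⁻¹' A = A) (hfl : ∀ᵐ x ∂P, x k = false → h (fl k x) = c * h x) :
    ∫ x in A ∩ {x | x k ∈ ({true} : Set Bool)}, h x ∂P =
      c * ∫ x in A ∩ {x | x k ∈ ({false} : Set Bool)}, h x ∂P := by
  have h1 := (mp_fl k).setIntegral_preimage_emb (flE k).measurableEmbedding h
    (A ∩ {x | x k ∈ ({true} : Set Bool)})
  have h2 : fl k ⁻¹' (A ∩ {x | x k ∈ ({true} : Set Bool)}) =
      A ∩ {x | x k ∈ ({false} : Set Bool)} := by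
    rw [preimage_inter, hinv]
    ext x
    simp [fl_same]
  rw [h2] at h1
  rw [← h1, ← integral_const_mul]
  apply setIntegral_congr_ae (hA.inter (meas_coord k _))
  filter_upwards [hfl] with x hx hx2
  exact hx (by simpa using hx2.2)

theorem split_int {h : Om → ℂ} (hi : Integrable h P) {k : ℕ} {A : Set Om} (hA : MeasurableSet A) :
    ∫ x in A, h x ∂P = (∫ x in A ∩ {x | x k ∈ ({false} : Set Bool)}, h x ∂P) +
      ∫ x in A ∩ {x | x k ∈ ({true} : Set Bool)}, h x ∂P := by
  rw [← setIntegral_union]
  · congr 2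
    ext x
    cases hx : x k <;> simp [hx]
  · rw [Set.disjoint_left]
    rintro x ⟨-, h1⟩ ⟨-, h2⟩
    simp only [mem_ofPred_eq, mem_singleton_iff] at h1 h2
    rw [h1] at h2
    exact absurd h2 (by simp)
  · exact hA.inter (meas_coord k _)
  · exact hi.integrableOn
  · exact hi.integrableOn

theorem flip_half {h : Om → ℂ} (hi : Integrable h P) {c : ℂ} {k : ℕ} {A : Set Om}
    (hA : MeasurableSet A)
    (hinv : fl k ⁻¹' A = A) (hfl : ∀ᵐ x ∂P, x k = false → h (fl k x) = c * h x) :
    ∫ x in A, h x ∂P = (1 + c) * ∫ x in A ∩ {x | x k ∈ ({false} : Set Bool)}, h x ∂P := by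
  rw [split_int hi (k := k) hA, flip_int hA hinv hfl]; ring

theorem cyl_meas (s : Finset ℕ) (t : ℕ → Set Bool) : MeasurableSet ((s : Set ℕ).pi t : Set Om) :=
  MeasurableSet.pi s.countable_toSet fun _ _ => MeasurableSpace.measurableSet_top

theorem cyl_inv {s : Finset ℕ} {t : ℕ → Set Bool} {k : ℕ} (hk : k ∉ s) :
    fl k ⁻¹' ((s : Set ℕ).pi t : Set Om) = (s : Set ℕ).pi t := by
  ext x
  simp only [mem_preimage, Set.mem_pi, Finset.mem_coe]
  constructor
  · intro h i hi
    have := h i hi
    rwa [fl_ne (fun e : i = k => hk (by rw [← e]; exact hi))] at this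
  · intro h i hi
    rw [fl_ne (fun e : i = k => hk (by rw [← e]; exact hi))]
    exact h i hi

/-- a function all of whose integrals over cylinders vanish is zero -/
theorem ae_zero {h : Om → ℂ} (hi : Integrable h P)
    (h0 : ∀ (s : Finset ℕ) (t : ℕ → Set Bool), ∫ x in (s : Set ℕ).pi t, h x ∂P = 0) :
    h =ᵐ[P] 0 := by
  apply hi.ae_eq_zero_of_forall_setIntegral_eq_zero
  intro A hA _
  have huniv : ∫ x, h x ∂P = 0 := by
    have := h0 ∅ (fun _ => univ)
    simpa using this
  induction A, hA using MeasurableSpace.induction_on_inter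
    (s := squareCylinders fun _ : ℕ => {s : Set Bool | MeasurableSet s}) with
  | h_eq => exact generateFrom_squareCylinders.symm
  | h_inter => exact isPiSystem_squareCylinders (fun _ => MeasurableSpace.isPiSystem_measurableSet) (by simp)
  | empty => simp
  | basic A hA =>
    obtain ⟨s, t, -, rfl⟩ := hA
    exact h0 s t
  | compl A hA ih =>
    have := integral_add_compl hA hi
    rw [ih (measure_lt_top _ _), huniv, zero_add] at this
    exact this
  | iUnion f hd hf ih =>
    rw [integral_iUnion hf hd hi.integrableOn]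
    simp [ih]

/-- a function invariant under all flips is constant -/
theorem ae_const {h : Om → ℂ} (hi : Integrable h P)
    (hfl : ∀ k, ∀ᵐ x ∂P, x k = false → h (fl k x) = h x) :
    ∀ᵐ x ∂P, h x = ∫ y, h y ∂P := by
  set I : ℂ := ∫ y, h y ∂P with hI
  have hi' : Integrable (fun x => h x - I) P := hi.sub (integrable_const _)
  have hfl' : ∀ k, ∀ᵐ x ∂P, x k = false → (fun x => h x - I) (fl k x) =
      1 * (fun x => h x - I) x := by
    intro k
    filter_upwards [hfl k] with x hx hk
    simp only [one_mul]
    rw [hx hk]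
  have key : (fun x => h x - I) =ᵐ[P] 0 := by
    apply ae_zero hi'
    intro s t
    induction s using Finset.induction_on with
    | empty =>
      simp only [Finset.coe_empty, empty_pi, setIntegral_univ]
      rw [integral_sub hi (integrable_const _)]
      simp [hI]
    | insert k s hk ih =>
      have hA := cyl_meas s t
      have h1 := flip_half hi' (c := 1) hA (cyl_inv hk) (hfl' k)
      rw [ih] at h1
      have h2 : ∫ x in ((s : Set ℕ).pi t) ∩ {x | x k ∈ ({false} : Set Bool)}, (h x - I) ∂P = 0 := by
        have : (1 + 1 : ℂ) ≠ 0 := by norm_num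
        exact (mul_eq_zero.1 h1.symm).resolve_left this
      have h3 : ∫ x in ((s : Set ℕ).pi t) ∩ {x | x k ∈ ({true} : Set Bool)}, (h x - I) ∂P = 0 := by
        rw [flip_int hA (cyl_inv hk) (hfl' k), h2, mul_zero]
      have e : (((insert k s : Finset ℕ) : Set ℕ).pi t : Set Om) =
          ((s : Set ℕ).pi t) ∩ {x | x k ∈ t k} := by
        rw [Finset.coe_insert, insert_pi, inter_comm]
        rfl
      rw [e]
      by_cases ht : true ∈ t k <;> by_cases hf : false ∈ t k
      · have e2 : (((s : Set ℕ).pi t) ∩ {x | x k ∈ t k} : Set Om) = (s : Set ℕ).pi t := by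
          ext x
          simp only [mem_inter_iff, mem_ofPred_eq, and_iff_left_iff_imp]
          intro _
          cases x k
          · exact hf
          · exact ht
        rw [e2]; exact ih
      · have e2 : t k = {true} := by
          ext b; cases b <;> simp [ht, hf]
        rw [e2]; exact h3
      · have e2 : t k = {false} := by
          ext b; cases b <;> simp [ht, hf]
        rw [e2]; exact h2
      · have e2 : t k = ∅ := by
          ext b; cases b <;> simp [ht, hf]
        rw [e2]; simp
  filter_upwards [key] with x hx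
  exact sub_eq_zero.1 hx

/-- a bounded non-zero function which is multiplied by `c k` under the `k`-th flip:
`c k` tends to `1` -/
theorem tendsto_one {h : Om → ℂ} {B : ℝ} (hm : AEStronglyMeasurable h P) (hB : ∀ x, ‖h x‖ ≤ B)
    {c : ℕ → ℂ} (hc : ∀ k, ‖c k‖ = 1)
    (hfl : ∀ k, ∀ᵐ x ∂P, x k = false → h (fl k x) = c k * h x) (hne : ¬ h =ᵐ[P] 0) :
    Tendsto c atTop (𝓝 1) := by
  have hi : Integrable h P := Integrable.of_bound hm B (Eventually.of_forall hB)
  have hex : ∃ (s : Finset ℕ) (t : ℕ → Set Bool), ∫ x in (s : Set ℕ).pi t, h x ∂P ≠ 0 := by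
    by_contra hcon
    push Not at hcon
    exact hne (ae_zero hi hcon)
  obtain ⟨s, t, hI⟩ := hex
  obtain ⟨n, hn⟩ : ∃ n, ∀ k ∈ s, k < n := by
    refine ⟨s.sup id + 1, fun k hk => ?_⟩
    have : id k ≤ s.sup id := Finset.le_sup hk
    exact Nat.lt_succ_of_le this
  set A : ℕ → Set Om := fun j => ((s : Set ℕ).pi t) ∩ {x | ∀ i < j, x (n + i) = false} with hAdef
  have hAm : ∀ j, MeasurableSet (A j) := by
    intro j
    refine (cyl_meas s t).inter ?_
    have : {x : Om | ∀ i < j, x (n + i) = false} = ⋂ i ∈ Finset.range j,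
        {x : Om | x (n + i) ∈ ({false} : Set Bool)} := by
      ext x; simp
    rw [this]
    exact Finset.measurableSet_biInter _ fun i _ => meas_coord _ _
  have hAinv : ∀ j, fl (n + j) ⁻¹' (A j) = A j := by
    intro j
    rw [hAdef]
    simp only [preimage_inter]
    rw [cyl_inv (fun hk => absurd (hn _ hk) (by omega))]
    congr 1
    ext x
    simp only [mem_preimage, mem_ofPred_eq]
    constructor
    · intro h' i hi'
      have := h' i hi'
      rwa [fl_ne (by omega)] at this
    · intro h' i hi'
      rw [fl_ne (by omega)]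
      exact h' i hi'
  have hAsucc : ∀ j, A j ∩ {x | x (n + j) ∈ ({false} : Set Bool)} = A (j + 1) := by
    intro j
    ext x
    simp only [hAdef, mem_inter_iff, mem_ofPred_eq, mem_singleton_iff, and_assoc]
    refine and_congr_right fun _ => ?_
    constructor
    · rintro ⟨h1, h2⟩ i hi'
      rcases Nat.lt_succ_iff_lt_or_eq.1 hi' with h3 | h3
      · exact h1 i h3
      · rw [h3]; exact h2
    · intro h1
      exact ⟨fun i hi' => h1 i (by omega), h1 j (by omega)⟩
  have hstep : ∀ j, ∫ x in A j, h x ∂P = (1 + c (n + j)) * ∫ x in A (j + 1), h x ∂P := by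
    intro j
    rw [← hAsucc j]
    exact flip_half hi (hAm j) (hAinv j) (hfl (n + j))
  have hstep1 : ∀ j, P.real (A j) = 2 * P.real (A (j + 1)) := by
    intro j
    have h1 := flip_half (h := fun _ => (1 : ℂ)) (c := 1) (integrable_const _) (hAm j) (hAinv j)
      (Eventually.of_forall fun x _ => by simp)
    rw [hAsucc j] at h1
    simp only [setIntegral_const, smul_eq_mul, mul_one] at h1
    have h2 : ((P.real (A j) : ℝ) : ℂ) = ((2 * P.real (A (j + 1)) : ℝ) : ℂ) := by
      push_cast
      simpa [one_add_one_eq_two] using h1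
    exact_mod_cast h2
  have hPA : ∀ j, P.real (A j) ≤ (1 / 2) ^ j := by
    intro j
    induction j with
    | zero => simpa using measureReal_le_one
    | succ j ih =>
      have := hstep1 j
      rw [pow_succ]; linarith
  set r : ℕ → ℝ := fun j => ‖1 + c (n + j)‖ / 2 with hr
  have hr0 : ∀ j, 0 ≤ r j := fun j => by positivity
  have hr1 : ∀ j, r j ≤ 1 := by
    intro j
    have := norm_add_le (1 : ℂ) (c (n + j))
    rw [hc, norm_one] at this
    simp only [hr]
    linarith
  have hB0 : 0 ≤ B := (norm_nonneg _).trans (hB (fun _ => false))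
  have hprod : ∀ j, ‖∫ x in A 0, h x ∂P‖ =
      (∏ i ∈ Finset.range j, r i) * (2 ^ j * ‖∫ x in A j, h x ∂P‖) := by
    intro j
    induction j with
    | zero => simp
    | succ j ih =>
      rw [ih, hstep j, norm_mul, Finset.prod_range_succ, pow_succ]
      simp only [hr]
      ring
  have hbd : ∀ j, ‖∫ x in A j, h x ∂P‖ ≤ B * (1 / 2) ^ j := by
    intro j
    calc ‖∫ x in A j, h x ∂P‖ ≤ B * P.real (A j) :=
          norm_setIntegral_le_of_norm_le_const (measure_lt_top _ _) (fun x _ => hB x)
      _ ≤ B * (1 / 2) ^ j := by gcongr; exact hPA j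
  have hA0 : A 0 = (s : Set ℕ).pi t := by
    ext x; simp [hAdef]
  set J : ℝ := ‖∫ x in A 0, h x ∂P‖ with hJ
  have hJ0 : 0 < J := by rw [hJ, hA0]; exact norm_pos_iff.2 hI
  set Q : ℕ → ℝ := fun j => ∏ i ∈ Finset.range j, r i with hQ
  have hQ0 : ∀ j, 0 ≤ Q j := fun j => Finset.prod_nonneg fun i _ => hr0 i
  have hQJ : ∀ j, J ≤ Q j * B := by
    intro j
    rw [hprod j]
    have h1 : 2 ^ j * ‖∫ x in A j, h x ∂P‖ ≤ B := by
      calc 2 ^ j * ‖∫ x in A j, h x ∂P‖ ≤ 2 ^ j * (B * (1 / 2) ^ j) := by
            gcongr; exact hbd j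
        _ = B * (2 * (1 / 2)) ^ j := by rw [mul_pow]; ring
        _ = B := by norm_num
    exact mul_le_mul_of_nonneg_left h1 (hQ0 j)
  have hBpos : 0 < B := by
    rcases hB0.lt_or_eq with h1 | h1
    · exact h1
    · have := hQJ 0; rw [← h1, mul_zero] at this; linarith
  have hanti : Antitone Q := by
    apply antitone_nat_of_succ_le
    intro j
    rw [hQ]
    simp only [Finset.prod_range_succ]
    exact mul_le_of_le_one_right (hQ0 j) (hr1 j)
  have hlb : ∀ j, J / B ≤ Q j := fun j => by
    rw [div_le_iff₀ hBpos]; exact hQJ j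
  have hbdd : BddBelow (range Q) := ⟨J / B, by rintro _ ⟨j, rfl⟩; exact hlb j⟩
  have hlim := tendsto_atTop_ciInf hanti hbdd
  set L : ℝ := ⨅ j, Q j with hL
  have hLpos : 0 < L := lt_of_lt_of_le (by positivity) (le_ciInf hlb)
  have hr_lim : Tendsto r atTop (𝓝 1) := by
    have h1 : Tendsto (fun j => Q (j + 1) / Q j) atTop (𝓝 (L / L)) :=
      ((tendsto_add_atTop_iff_nat 1).2 hlim).div hlim hLpos.ne'
    rw [div_self hLpos.ne'] at h1
    refine h1.congr fun j => ?_
    have hQj : 0 < Q j := lt_of_lt_of_le (by positivity) (hlb j)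
    simp only [hQ, Finset.prod_range_succ]
    rw [mul_div_assoc, mul_comm]
    exact div_mul_cancel₀ _ hQj.ne'
  -- from the moduli to the numbers
  have hfin : Tendsto (fun j => c (n + j)) atTop (𝓝 1) := by
    rw [tendsto_iff_norm_sub_tendsto_zero]
    have h4 : ∀ j, ‖c (n + j) - 1‖ ^ 2 = 4 - 4 * r j ^ 2 := by
      intro j
      have h5 := parallelogram_law_with_norm ℝ (c (n + j)) (1 : ℂ)
      rw [hc, norm_one] at h5
      simp only [hr]
      rw [add_comm (1 : ℂ)]
      nlinarith
    have h6 : Tendsto (fun j => ‖c (n + j) - 1‖ ^ 2) atTop (𝓝 0) := by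
      have : Tendsto (fun j => 4 - 4 * r j ^ 2) atTop (𝓝 (4 - 4 * 1 ^ 2)) :=
        ((hr_lim.pow 2).const_mul 4).const_sub 4
      norm_num at this
      refine this.congr fun j => (h4 j).symm
    have h7 := h6.sqrt
    simp only [Real.sqrt_zero] at h7
    refine h7.congr fun j => ?_
    rw [Real.sqrt_sq (norm_nonneg _)]
  have h8 := (tendsto_add_atTop_iff_nat (f := c) n).1 (by
    refine hfin.congr fun j => ?_
    rw [add_comm])
  exact h8

end H83WM
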