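import Mathlib
import Pool.Agent.H83R2.WM.Basic
import Pool.Agent.H83R2.WM.Coin

/-!
# A quasi-invariant measure for the rotation by `√2 - 1`, carried by a Cantor set and its translates
-/

open MeasureTheory Filter Topology Set

namespace H83WM

/-- `ψ ε = ∑ ε_k s_k` -/
noncomputable def psi (x : Om) : ℝ := ∑' k, if x k then s k else 0

theorem abs_s (k : ℕ) : |s k| = bt * bt ^ k := by
  rw [s, abs_mul, abs_pow, abs_neg, abs_of_pos bt_pos]

theorem bt_lt_one : bt < 1 := by have := bt_lt; have := bt_pos; linarith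

theorem summ_bound : Summable fun k : ℕ => bt * bt ^ k :=
  (summable_geometric_of_lt_one bt_pos.le bt_lt_one).mul_left _

theorem term_bound (x : Om) (k : ℕ) : ‖(if x k then s k else 0 : ℝ)‖ ≤ bt * bt ^ k := by
  split_ifs
  · rw [Real.norm_eq_abs, abs_s]
  · rw [norm_zero]; have := bt_pos; positivity

theorem summable_psi (x : Om) : Summable fun k => (if x k then s k else 0 : ℝ) :=
  Summable.of_norm_bounded summ_bound (term_bound x)

theorem psi_cont : Continuous psi := by
  refine continuous_tsum (fun k => ?_) summ_bound (fun k x => term_bound x k)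
  exact (continuous_of_discreteTopology (f := fun b : Bool => (if b then s k else 0 : ℝ))).comp
    (continuous_apply k)

theorem psi_fl {k : ℕ} {x : Om} (h : x k = false) : psi (fl k x) = psi x + s k := by
  have h1 := (summable_psi x).tsum_eq_add_tsum_ite k
  have h2 := (summable_psi (fl k x)).tsum_eq_add_tsum_ite k
  have h3 : ∀ n, (if n = k then (0 : ℝ) else if fl k x n then s n else 0) =
      if n = k then 0 else if x n then s n else 0 := by
    intro n
    by_cases hn : n = k
    · simp [hn]
    · simp [hn, fl_ne hn]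
  simp only [h3] at h2
  unfold psi
  rw [h1, h2, fl_same, h]
  simp
  ring

/-- the rotation number as an element of the circle -/
noncomputable def a : UnitAddCircle := (bt : ℝ)

noncomputable def phi (x : Om) : UnitAddCircle := (psi x : ℝ)

theorem phi_cont : Continuous phi := (AddCircle.continuous_mk' 1).comp psi_cont

theorem phi_meas : Measurable phi := phi_cont.measurable

theorem coe_int_zero (n : ℤ) : (((n : ℝ)) : UnitAddCircle) = 0 := by
  have := AddCircle.coe_period (1 : ℝ)
  have h : ((n : ℝ)) = n • (1 : ℝ) := by simp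
  rw [h, AddCircle.coe_zsmul, this, smul_zero]

theorem phi_fl {k : ℕ} {x : Om} (h : x k = false) : phi (fl k x) = phi x + q k • a := by
  unfold phi a
  rw [psi_fl h, s_eq, AddCircle.coe_add, AddCircle.coe_sub, coe_int_zero, sub_zero]
  congr 1
  rw [← AddCircle.coe_zsmul, zsmul_eq_mul]

/-! ### the measure -/

noncomputable def e : ℕ ≃ ℤ := Equiv.intEquivNat.symm

noncomputable def nu : Measure UnitAddCircle :=
  Measure.sum fun n : ℕ => ((1 / 2 : ENNReal) ^ (n + 1)) • P.map (fun x => phi x + e n • a)

theorem meas_tr (j : ℤ) : Measurable (fun x => phi x + j • a) :=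
  phi_meas.add_const _

theorem geo_sum : ∑' n : ℕ, (1 / 2 : ENNReal) ^ (n + 1) = 1 := by
  rw [ENNReal.tsum_geometric_add_one, one_div, ENNReal.one_sub_inv_two, inv_inv]
  exact ENNReal.inv_mul_cancel (by norm_num) (by norm_num)

instance : IsProbabilityMeasure nu := by
  constructor
  rw [nu, Measure.sum_apply _ MeasurableSet.univ]
  have : ∀ n : ℕ, (((1 / 2 : ENNReal) ^ (n + 1)) • P.map (fun x => phi x + e n • a)) univ =
      (1 / 2 : ENNReal) ^ (n + 1) := by
    intro n
    rw [Measure.smul_apply, Measure.map_apply (meas_tr _) MeasurableSet.univ]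
    simp
  simp only [this]
  exact geo_sum

theorem ae_nu {p : UnitAddCircle → Prop} (h : ∀ᵐ y ∂nu, p y) (j : ℤ) :
    ∀ᵐ x ∂P, p (phi x + j • a) := by
  rw [nu, Measure.ae_sum_iff] at h
  have h1 := h (e.symm j)
  rw [Equiv.apply_symm_apply] at h1
  rw [Measure.ae_ennreal_smul_measure_iff (by simp)] at h1
  exact ae_of_ae_map (meas_tr j).aemeasurable h1

theorem nu_ae {p : UnitAddCircle → Prop} (hp : MeasurableSet {y | p y})
    (h : ∀ j : ℤ, ∀ᵐ x ∂P, p (phi x + j • a)) : ∀ᵐ y ∂nu, p y := by
  rw [nu, Measure.ae_sum_iff]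
  intro n
  rw [Measure.ae_ennreal_smul_measure_iff (by simp)]
  rw [ae_map_iff (meas_tr _).aemeasurable hp]
  exact h _

/-- the rotation -/
noncomputable def T : UnitAddCircle ≃ᵐ UnitAddCircle := MeasurableEquiv.addRight a

theorem T_apply (y : UnitAddCircle) : T y = y + a := rfl

theorem nonsing {A : Set UnitAddCircle} (hA : MeasurableSet A) : nu (T ⁻¹' A) = 0 ↔ nu A = 0 := by
  have e1 : nu (T ⁻¹' A) = 0 ↔ ∀ᵐ y ∂nu, y + a ∉ A := by
    rw [measure_eq_zero_iff_ae_notMem]; rfl
  have e2 : nu A = 0 ↔ ∀ᵐ y ∂nu, y ∉ A := measure_eq_zero_iff_ae_notMem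
  rw [e1, e2]
  constructor
  · intro h
    refine nu_ae hA.compl fun j => ?_
    filter_upwards [ae_nu h (j - 1)] with x hx
    rwa [add_assoc, ← add_one_zsmul, sub_add_cancel] at hx
  · intro h
    refine nu_ae (T.measurable hA).compl fun j => ?_
    filter_upwards [ae_nu h (j + 1)] with x hx
    rwa [add_one_zsmul, ← add_assoc] at hx

end H83WM
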