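import Mathlib
import Pool.Agent.H83R2.WM.Sys

/-!
# The eigenfunctions of the rotation
-/

open MeasureTheory Filter Topology Set

namespace H83WM

theorem four_add (m : ℤ) (x y : UnitAddCircle) :
    fourier m (x + y) = fourier m x * fourier m y := by
  simp only [fourier_apply, smul_add, AddCircle.toCircle_add, Circle.coe_mul]

theorem four_smul (m j : ℤ) (x : UnitAddCircle) :
    fourier m (j • x) = (fourier m x : ℂ) ^ j := by
  simp only [fourier_apply]
  rw [smul_comm, AddCircle.toCircle_zsmul, Circle.coe_zpow]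

theorem four_norm (m : ℤ) (x : UnitAddCircle) : ‖(fourier m x : ℂ)‖ = 1 := by
  rw [fourier_apply]; exact Circle.norm_coe _

theorem four_ne (m : ℤ) (x : UnitAddCircle) : (fourier m x : ℂ) ≠ 0 := by
  intro h
  have := four_norm m x
  rw [h, norm_zero] at this
  exact zero_ne_one this

theorem four_meas (m : ℤ) : Measurable (fun x : UnitAddCircle => (fourier m x : ℂ)) :=
  (map_continuous (fourier m)).measurable

/-- numbers `c` of modulus one with `c ^ (q k) → 1` are powers of `exp (2 π i bt)` -/
theorem char_of_tendsto {c : ℂ} (hc : ‖c‖ = 1) (h : Tendsto (fun k => c ^ (q k)) atTop (𝓝 1)) :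
    ∃ m : ℤ, c = fourier m a := by
  obtain ⟨θ', rfl⟩ := (Complex.norm_eq_one_iff _).1 hc
  set θ : ℝ := θ' / (2 * Real.pi) with hθ
  have hpi := Real.pi_pos
  have hθ' : θ' = 2 * Real.pi * θ := by rw [hθ]; field_simp
  set N : ℕ → ℤ := fun k => round (q k * θ) with hN
  set δ : ℕ → ℝ := fun k => q k * θ - N k with hδ
  have h1 : ∀ k, Complex.exp (θ' * Complex.I) ^ (q k) =
      Complex.exp (Complex.I * ((2 * Real.pi * δ k : ℝ) : ℂ)) := by
    intro k
    rw [← Complex.exp_int_mul, hθ']
    rw [Complex.exp_eq_exp_iff_exists_int]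
    refine ⟨N k, ?_⟩
    simp only [hδ]
    push_cast
    ring
  have h2 : ∀ k, 4 * |δ k| ≤ ‖Complex.exp (θ' * Complex.I) ^ (q k) - 1‖ := by
    intro k
    rw [h1 k, Complex.norm_exp_I_mul_ofReal_sub_one]
    have h3 : |δ k| ≤ 1 / 2 := by
      simp only [hδ, hN]
      exact abs_sub_round _
    have h4 : 2 * Real.pi * δ k / 2 = Real.pi * δ k := by ring
    rw [h4, norm_mul, Real.norm_eq_abs, Real.norm_eq_abs, abs_two]
    have h5 : |Real.pi * δ k| ≤ Real.pi / 2 := by
      rw [abs_mul, abs_of_pos hpi]; nlinarith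
    have h6 := Real.mul_abs_le_abs_sin h5
    rw [abs_mul, abs_of_pos hpi] at h6
    have h7 : 2 / Real.pi * (Real.pi * |δ k|) = 2 * |δ k| := by field_simp
    rw [h7] at h6
    linarith
  have h3 : Tendsto δ atTop (𝓝 0) := by
    have h4 := tendsto_iff_norm_sub_tendsto_zero.1 h
    refine squeeze_zero_norm (fun k => ?_) h4
    rw [Real.norm_eq_abs]
    have := h2 k
    have := abs_nonneg (δ k)
    linarith
  obtain ⟨l, m, hlm⟩ := exists_int h3
  refine ⟨m, ?_⟩
  rw [a, fourier_coe_apply, hθ', Complex.exp_eq_exp_iff_exists_int]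
  refine ⟨l, ?_⟩
  rw [hlm]
  push_cast
  ring

/-- the eigenfunctions of the rotation with respect to `nu` are the characters -/
theorem eig {g : UnitAddCircle → ℂ} (hg : Measurable g) {B : ℝ} (hB : ∀ y, ‖g y‖ ≤ B)
    {c : ℂ} (hc : ‖c‖ = 1) (hinv : ∀ᵐ y ∂nu, g (y + a) = c * g y) :
    (∀ᵐ y ∂nu, g y = 0) ∨
      ∃ (m : ℤ) (A : ℂ), c = fourier m a ∧ ∀ᵐ y ∂nu, g y = A * fourier m y := by
  have hc0 : c ≠ 0 := by
    intro h0; rw [h0, norm_zero] at hc; exact zero_ne_one hc
  have h1 : ∀ᵐ x ∂P, ∀ j : ℤ, g (phi x + j • a + a) = c * g (phi x + j • a) :=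
    ae_all_iff.2 fun j => ae_nu hinv j
  have h2 : ∀ᵐ x ∂P, ∀ j : ℤ, g (phi x + j • a) = c ^ j * g (phi x) := by
    filter_upwards [h1] with x hx j
    induction j using Int.induction_on with
    | zero => simp
    | succ i ih =>
      rw [add_one_zsmul, ← add_assoc, hx, ih, zpow_add_one₀ hc0]; ring
    | pred i ih =>
      have h3 := hx (-(i : ℤ) - 1)
      rw [add_assoc, ← add_one_zsmul, sub_add_cancel, ih] at h3
      apply mul_left_cancel₀ hc0
      rw [← h3, ← mul_assoc, ← zpow_one_add₀ hc0]
      congr 2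
      ring
  set h : Om → ℂ := fun x => g (phi x) with hh
  have hm : Measurable h := hg.comp phi_meas
  have hfl : ∀ k, ∀ᵐ x ∂P, x k = false → h (fl k x) = c ^ (q k) * h x := by
    intro k
    filter_upwards [h2] with x hx hk
    simp only [hh]
    rw [phi_fl hk, hx]
  by_cases hz : h =ᵐ[P] 0
  · left
    refine nu_ae (hg (measurableSet_singleton 0)) fun j => ?_
    filter_upwards [h2, hz] with x hx hx0
    rw [hx j]
    have : g (phi x) = 0 := hx0
    rw [this, mul_zero]
  · right
    have h3 := tendsto_one hm.aestronglyMeasurable (B := B) (fun x => hB _) (c := fun k => c ^ (q k))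
      (fun k => by rw [norm_zpow, hc, one_zpow]) hfl hz
    obtain ⟨m, hm'⟩ := char_of_tendsto hc h3
    set h' : Om → ℂ := fun x => h x * (fourier m (phi x))⁻¹ with hh'
    have hmm : Measurable h' := hm.mul ((four_meas m).comp phi_meas).inv
    have hi : Integrable h' P := by
      refine Integrable.of_bound hmm.aestronglyMeasurable B (Eventually.of_forall fun x => ?_)
      simp only [hh', norm_mul, norm_inv, four_norm, inv_one, mul_one]
      exact hB _
    have h4 := ae_const hi (by
      intro k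
      filter_upwards [hfl k] with x hx hk
      simp only [hh']
      rw [hx hk, phi_fl hk, four_add, four_smul, ← hm']
      have := zpow_ne_zero (q k) hc0
      have := four_ne m (phi x)
      field_simp)
    refine ⟨m, ∫ y, h' y ∂P, hm', ?_⟩
    refine nu_ae ?_ fun j => ?_
    · exact measurableSet_eq_fun hg ((four_meas m).const_mul _)
    · filter_upwards [h2, h4] with x hx hx4
      rw [hx j, four_add, four_smul, ← hm', ← hx4]
      simp only [hh', hh]
      have := four_ne m (phi x)
      field_simp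

end H83WM
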