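import Mathlib
import Pool.Agent.H83R2.WM.Sys

/-!
# The Cantor set and its images are null for the Lebesgue measure
-/

open MeasureTheory Filter Topology Set
open scoped Pointwise

namespace H83WM

def shift (x : Om) : Om := fun k => x (k + 1)

theorem psi_shift (x : Om) : psi x = (if x 0 then bt else 0) + (-bt) * psi (shift x) := by
  unfold psi
  rw [(summable_psi x).tsum_eq_zero_add, ← tsum_mul_left]
  congr 1
  · simp [s]
  · refine tsum_congr fun k => ?_
    simp only [shift]
    split_ifs
    · rw [s_succ]
    · simp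

theorem range_compact : IsCompact (range psi) := isCompact_range psi_cont

theorem vol_range : volume (range psi) = 0 := by
  have h1 : range psi ⊆ ((-bt) • range psi) ∪ ((fun t => bt + t) '' ((-bt) • range psi)) := by
    rintro _ ⟨x, rfl⟩
    rw [psi_shift]
    have hm : (-bt) * psi (shift x) ∈ (-bt) • range psi :=
      ⟨psi (shift x), ⟨shift x, rfl⟩, rfl⟩
    cases x 0
    · left; simpa using hm
    · right; exact ⟨_, hm, by simp⟩
  have h2 : volume ((-bt) • range psi) = ENNReal.ofReal bt * volume (range psi) := by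
    rw [Measure.addHaar_smul, Module.finrank_self, pow_one, abs_neg, abs_of_pos bt_pos]
  have h3 : volume ((fun t => bt + t) '' ((-bt) • range psi)) =
      ENNReal.ofReal bt * volume (range psi) := by
    rw [image_add_left, measure_preimage_add, h2]
  have h4 : volume (range psi) ≤ ENNReal.ofReal (2 * bt) * volume (range psi) := by
    calc volume (range psi) ≤ _ := measure_mono h1
      _ ≤ _ := measure_union_le _ _
      _ = _ := by
        rw [h2, h3, ← two_mul, ← mul_assoc, ENNReal.ofReal_mul (by norm_num)]
        simp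
  have h5 : volume (range psi) ≠ ⊤ := range_compact.measure_lt_top.ne
  by_contra h0
  have h6 : ENNReal.ofReal (2 * bt) * volume (range psi) < 1 * volume (range psi) := by
    apply ENNReal.mul_lt_mul_left h0 h5
    rw [← ENNReal.ofReal_one]
    exact (ENNReal.ofReal_lt_ofReal_iff one_pos).2 bt_lt
  rw [one_mul] at h6
  exact absurd h4 (not_le.2 h6)

/-- the map `t ↦ m (t + j bt)` -/
noncomputable def aff (m j : ℤ) (t : ℝ) : ℝ := m * (t + j * bt)

noncomputable def E (m j : ℤ) : Set UnitAddCircle :=
  (fun t : ℝ => (t : UnitAddCircle)) '' (aff m j '' range psi)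

theorem aff_cont (m j : ℤ) : Continuous (aff m j) := by unfold aff; fun_prop

theorem E_compact (m j : ℤ) : IsCompact (E m j) :=
  (range_compact.image (aff_cont m j)).image (AddCircle.continuous_mk' 1)

theorem vol_E (m j : ℤ) : volume (E m j) = 0 := by
  have h1 : volume (aff m j '' range psi) = 0 := by
    apply addHaar_image_eq_zero_of_differentiableOn_of_addHaar_eq_zero volume _ vol_range
    unfold aff
    fun_prop
  have h2 := (AddCircle.measurePreserving_mk 1 0).measure_preimage
    (E_compact m j).measurableSet.nullMeasurableSet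
  rw [← h2]
  have h3 : (fun t : ℝ => (t : UnitAddCircle)) ⁻¹' (E m j) ⊆
      ⋃ n : ℤ, (fun t : ℝ => t + n) '' (aff m j '' range psi) := by
    rintro t ⟨u, hu, hut⟩
    have h4 : ((t - u : ℝ) : UnitAddCircle) = 0 := by
      have hut' : (u : UnitAddCircle) = (t : UnitAddCircle) := hut
      rw [AddCircle.coe_sub, ← hut', sub_self]
    obtain ⟨n, hn⟩ := (AddCircle.coe_eq_zero_iff (1 : ℝ)).1 h4
    refine mem_iUnion.2 ⟨n, u, hu, ?_⟩
    simp only [zsmul_eq_mul, mul_one] at hn
    simp only [hn]
    ring
  refine le_antisymm ?_ zero_le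
  refine (Measure.restrict_apply_le _ _).trans ?_
  refine (measure_mono h3).trans ?_
  rw [nonpos_iff_eq_zero, measure_iUnion_null_iff]
  intro n
  rw [image_add_right, measure_preimage_add_right, h1]

theorem mem_E (m j : ℤ) (x : Om) : m • (phi x + j • a) ∈ E m j := by
  refine ⟨aff m j (psi x), ⟨psi x, ⟨x, rfl⟩, rfl⟩, ?_⟩
  unfold aff phi a
  rw [← AddCircle.coe_zsmul, ← AddCircle.coe_add, ← AddCircle.coe_zsmul]
  simp only [zsmul_eq_mul]

/-- `nu`-almost every point is mapped by the multiplication by `m` to a fixed null set -/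
theorem nu_E (m : ℤ) : ∀ᵐ y ∂nu, m • y ∈ ⋃ j : ℤ, E m j := by
  refine nu_ae ?_ fun j => Eventually.of_forall fun x => mem_iUnion.2 ⟨j, mem_E m j x⟩
  have h1 : MeasurableSet (⋃ j : ℤ, E m j) := MeasurableSet.iUnion fun j =>
    (E_compact m j).measurableSet
  exact (continuous_zsmul m).measurable h1

theorem vol_UE (m : ℤ) : volume (⋃ j : ℤ, E m j) = 0 := by
  rw [measure_iUnion_null_iff]
  exact fun j => vol_E m j

end H83WM
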