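import Mathlib
import Pool.Agent.H83R2.WM.Eig
import Pool.Agent.H83R2.WM.Vol

/-!
# Ergodicity of the rotation, and its factors with an invariant probability
-/

open MeasureTheory Filter Topology Set

namespace H83WM

theorem m_zero {m : ℤ} (h : (1 : ℂ) = fourier m a) : m = 0 := by
  rw [a, fourier_coe_apply] at h
  obtain ⟨n, hn⟩ := Complex.exp_eq_one_iff.1 h.symm
  have hpi : (2 * (Real.pi : ℂ) * Complex.I) ≠ 0 := Complex.two_pi_I_ne_zero
  have h1 : ((m * bt : ℝ) : ℂ) = ((n : ℝ) : ℂ) := by
    apply mul_right_cancel₀ hpi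
    push_cast
    rw [← hn]
    push_cast
    ring
  have h2 : (m : ℝ) * bt = n := by exact_mod_cast h1
  by_contra hm
  have h3 := (irrational_intCast_mul_iff.2 ⟨hm, bt_irr⟩)
  rw [h2] at h3
  exact (Int.not_irrational n) h3

theorem ergodic_nu {A : Set UnitAddCircle} (hA : MeasurableSet A) (h : T ⁻¹' A =ᵐ[nu] A) :
    nu A = 0 ∨ nu Aᶜ = 0 := by
  set g : UnitAddCircle → ℂ := A.indicator (fun _ => 1) with hg
  have hgm : Measurable g := measurable_const.indicator hA
  have hB : ∀ y, ‖g y‖ ≤ 1 := by
    intro y
    by_cases hy : y ∈ A <;> simp [hg, hy]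
  have hinv : ∀ᵐ y ∂nu, g (y + a) = 1 * g y := by
    filter_upwards [h.mem_iff] with y hy
    rw [one_mul]
    have : y + a ∈ A ↔ y ∈ A := hy
    by_cases hyA : y ∈ A
    · simp [hg, hyA, this.2 hyA]
    · simp [hg, hyA, mt this.1 hyA]
  rcases eig hgm hB norm_one hinv with h0 | ⟨m, c, hm, hc⟩
  · left
    rw [measure_eq_zero_iff_ae_notMem]
    filter_upwards [h0] with y hy hyA
    simp [hg, hyA] at hy
  · have hm0 := m_zero hm
    subst hm0
    by_cases hc1 : c = 1
    · right
      rw [measure_eq_zero_iff_ae_notMem]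
      filter_upwards [hc] with y hy hyA
      rw [hc1, fourier_zero, mul_one] at hy
      have : y ∉ A := hyA
      simp [hg, this] at hy
    · left
      rw [measure_eq_zero_iff_ae_notMem]
      filter_upwards [hc] with y hy hyA
      rw [fourier_zero, mul_one] at hy
      simp only [hg, indicator_of_mem hyA] at hy
      exact hc1 hy.symm

theorem vol_prob : IsProbabilityMeasure (volume : Measure UnitAddCircle) :=
  ⟨by rw [AddCircle.measure_univ]; simp⟩

section law

variable {Y : Type*} [MeasurableSpace Y] {ν : Measure Y} [IsProbabilityMeasure ν] {S : Y → Y}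
  {F : Y → ℂ} {m : ℤ}

theorem dense_m (hm : m ≠ 0) : DenseRange (fun j : ℤ => j • (m • a)) := by
  have h1 : m • a = ((m * bt : ℝ) : UnitAddCircle) := by
    rw [a, ← AddCircle.coe_zsmul, zsmul_eq_mul]
  rw [h1]
  rw [AddCircle.denseRange_zsmul_coe_iff, div_one]
  exact irrational_intCast_mul_iff.2 ⟨hm, bt_irr⟩

theorem law (hS : MeasurePreserving S ν ν) (hFm : Measurable F) (hm : m ≠ 0)
    (hF1 : ∀ᵐ y ∂ν, ‖F y‖ = 1) (hF : ∀ᵐ y ∂ν, F (S y) = fourier m a * F y) :
    ν.map F = (volume : Measure UnitAddCircle).map (fun t => (fourier 1 t : ℂ)) := by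
  have hvp := vol_prob
  haveI : IsProbabilityMeasure (ν.map F) := Measure.isProbabilityMeasure_map hFm.aemeasurable
  haveI : IsProbabilityMeasure
      ((volume : Measure UnitAddCircle).map (fun t => (fourier 1 t : ℂ))) :=
    Measure.isProbabilityMeasure_map (four_meas 1).aemeasurable
  apply ext_of_forall_integral_eq_of_IsFiniteMeasure
  intro Φ
  rw [integral_map hFm.aemeasurable Φ.continuous.aestronglyMeasurable,
    integral_map (four_meas 1).aemeasurable Φ.continuous.aestronglyMeasurable]
  set I : UnitAddCircle → ℝ := fun t => ∫ y, Φ (F y * fourier 1 t) ∂ν with hI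
  have hm1 : ∀ t : UnitAddCircle, AEStronglyMeasurable (fun y => Φ (F y * fourier 1 t)) ν := fun t =>
    (Φ.continuous.measurable.comp (hFm.mul_const _)).aestronglyMeasurable
  have hIc : Continuous I := by
    apply continuous_of_dominated (bound := fun _ => ‖Φ‖) hm1
    · intro t
      exact Eventually.of_forall fun y => Φ.norm_coe_le_norm _
    · exact integrable_const _
    · refine Eventually.of_forall fun y => ?_
      exact Φ.continuous.comp (continuous_const.mul (map_continuous (fourier 1)))
  have hstep : ∀ t, I (t + m • a) = I t := by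
    intro t
    have h1 : I t = ∫ y, Φ (F (S y) * fourier 1 t) ∂ν := by
      have h2 := integral_map (μ := ν) (φ := S) hS.measurable.aemeasurable
        (f := fun y => Φ (F y * fourier 1 t)) (by rw [hS.map_eq]; exact hm1 t)
      rw [hS.map_eq] at h2
      exact h2
    rw [h1]
    refine integral_congr_ae ?_
    filter_upwards [hF] with y hy
    rw [hy, four_add, four_smul]
    have h3 : (fourier 1 a : ℂ) ^ m = fourier m a := by
      simp only [fourier_apply, one_smul, AddCircle.toCircle_zsmul, Circle.coe_zpow]
    rw [h3]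
    congr 1
    ring
  have hall : ∀ j : ℤ, I (j • (m • a)) = I 0 := by
    intro j
    induction j using Int.induction_on with
    | zero => simp
    | succ i ih => rw [add_one_zsmul, hstep, ih]
    | pred i ih =>
      rw [← ih, ← hstep, ← add_one_zsmul, sub_add_cancel]
  have hconst : ∀ t, I t = I 0 := by
    have := (dense_m hm).equalizer hIc (continuous_const (y := I 0)) (by
      funext j; exact hall j)
    intro t
    exact congrFun this t
  have h0 : I 0 = ∫ y, Φ (F y) ∂ν := by
    simp only [hI, fourier_eval_zero, mul_one]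
  rw [← h0]
  have h4 : I 0 = ∫ t : UnitAddCircle, I t := by
    simp only [hconst, integral_const, probReal_univ, one_smul]
  rw [h4]
  simp only [hI]
  rw [integral_integral_swap]
  · have h5 : ∀ᵐ y ∂ν, ∫ t : UnitAddCircle, Φ (F y * fourier 1 t) =
        ∫ t : UnitAddCircle, Φ (fourier 1 t) := by
      filter_upwards [hF1] with y hy
      obtain ⟨θ, hθ⟩ := (Complex.norm_eq_one_iff _).1 hy
      have h6 : F y = fourier 1 ((θ / (2 * Real.pi) : ℝ) : UnitAddCircle) := by
        rw [← hθ, fourier_coe_apply]
        congr 1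
        have : (Real.pi : ℂ) ≠ 0 := by exact_mod_cast Real.pi_ne_zero
        push_cast
        field_simp
      rw [h6]
      simp only [← four_add]
      exact integral_add_left_eq_self (fun t : UnitAddCircle => Φ (fourier 1 t)) _
    rw [integral_congr_ae h5]
    simp
  · refine Integrable.of_bound (C := ‖Φ‖) ?_ (Eventually.of_forall fun z => Φ.norm_coe_le_norm _)
    refine Measurable.aestronglyMeasurable ?_
    exact Φ.continuous.measurable.comp ((hFm.comp measurable_snd).mul
      ((four_meas 1).comp measurable_fst))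

end law

end H83WM
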