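import Mathlib
import Pool.Agent.H83R2.WM.Fac

/-!
# Factors with an invariant probability have only constant eigenfunctions
-/

open MeasureTheory Filter Topology Set

namespace H83WM

section fac

variable {Y : Type*} [MeasurableSpace Y] {ν : Measure Y} [IsProbabilityMeasure ν] {S : Y → Y}
  {π : UnitAddCircle → Y}

theorem tr (hπ : Measurable π) (h1 : ν ≪ nu.map π) {p : Y → Prop} (hp : MeasurableSet {y | p y})
    (h : ∀ᵐ x ∂nu, p (π x)) : ∀ᵐ y ∂ν, p y :=
  h1.ae_le ((ae_map_iff hπ.aemeasurable hp).2 h)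

theorem four_one_smul (m : ℤ) (x : UnitAddCircle) : (fourier 1 (m • x) : ℂ) = fourier m x := by
  simp only [fourier_apply, one_smul]

theorem four_one_inj : Function.Injective (fun t : UnitAddCircle => (fourier 1 t : ℂ)) := by
  intro s t h
  simp only [fourier_apply, one_smul] at h
  exact AddCircle.injective_toCircle one_ne_zero (Subtype.ext h)

theorem norm_lam (hS : MeasurePreserving S ν ν) {f : Y → ℂ} {lam : ℂ} (hf : MemLp f 2 ν)
    (hlam : ∀ᵐ y ∂ν, f (S y) = lam * f y) (hne : ¬ f =ᵐ[ν] 0) : ‖lam‖ = 1 := by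
  have h1 : eLpNorm (f ∘ S) 2 ν = eLpNorm f 2 ν := eLpNorm_comp_measurePreserving hf.1 hS
  have h2 : eLpNorm (f ∘ S) 2 ν = eLpNorm (lam • f) 2 ν := by
    apply eLpNorm_congr_ae
    filter_upwards [hlam] with y hy
    simpa using hy
  rw [h2, eLpNorm_const_smul] at h1
  have h3 : eLpNorm f 2 ν ≠ 0 := by
    intro h0
    exact hne ((eLpNorm_eq_zero_iff hf.1 (by norm_num)).1 h0)
  have h4 : eLpNorm f 2 ν ≠ ⊤ := hf.2.ne
  have h5 : ‖lam‖ₑ = 1 := by
    have : ‖lam‖ₑ * eLpNorm f 2 ν = 1 * eLpNorm f 2 ν := by rw [h1, one_mul]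
    exact (ENNReal.mul_left_inj h3 h4).1 this
  rw [← toReal_enorm, h5]
  simp

theorem no_eig (hπ : Measurable π) (hS : MeasurePreserving S ν ν)
    (hcomm : ∀ᵐ x ∂nu, π (T x) = S (π x)) (h1 : ν ≪ nu.map π) (h2 : nu.map π ≪ ν)
    {f : Y → ℂ} {lam : ℂ} (hf : MemLp f 2 ν) (hlam : ∀ᵐ y ∂ν, f (S y) = lam * f y) :
    ∃ c : ℂ, ∀ᵐ y ∂ν, f y = c := by
  by_contra hcon
  have hne : ¬ f =ᵐ[ν] 0 := fun h => hcon ⟨0, h⟩
  have hl := norm_lam hS hf hlam hne
  obtain ⟨f', hf'm, hff'⟩ := hf.1.aemeasurable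
  have hcon' : ∀ c : ℂ, ¬ ∀ᵐ y ∂ν, f' y = c := by
    intro c hc
    exact hcon ⟨c, by filter_upwards [hc, hff'] with y h3 h4; rw [h4, h3]⟩
  have hlam' : ∀ᵐ y ∂ν, f' (S y) = lam * f' y := by
    filter_upwards [hlam, hff', hS.quasiMeasurePreserving.ae hff'] with y h3 h4 h5
    rw [← h4, ← h5, h3]
  set F : Y → ℂ := fun y => f' y / ((1 + ‖f' y‖ : ℝ) : ℂ) with hF
  have hpos : ∀ y, (0 : ℝ) < 1 + ‖f' y‖ := fun y => by positivity
  have hFm : Measurable F := hf'm.div (Complex.measurable_ofReal.comp (hf'm.norm.const_add 1))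
  have hFn : ∀ y, ‖F y‖ = ‖f' y‖ / (1 + ‖f' y‖) := by
    intro y
    simp only [hF, norm_div, Complex.norm_real, Real.norm_eq_abs, abs_of_pos (hpos y)]
  have hFS : ∀ᵐ y ∂ν, F (S y) = lam * F y := by
    filter_upwards [hlam'] with y hy
    simp only [hF]
    rw [hy, norm_mul, hl, one_mul, mul_div_assoc]
  have hrec : ∀ y, f' y = F y / ((1 - ‖F y‖ : ℝ) : ℂ) := by
    intro y
    have h3 : (1 - ‖F y‖ : ℝ) = 1 / (1 + ‖f' y‖) := by
      rw [hFn]; have := (hpos y).ne'; field_simp; ring
    rw [h3]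
    simp only [hF]
    have : ((1 + ‖f' y‖ : ℝ) : ℂ) ≠ 0 := by exact_mod_cast (hpos y).ne'
    push_cast at this ⊢
    field_simp
  have hconF : ∀ c : ℂ, ¬ ∀ᵐ y ∂ν, F y = c := by
    intro c hc
    apply hcon' (c / ((1 - ‖c‖ : ℝ) : ℂ))
    filter_upwards [hc] with y hy
    rw [hrec y, hy]
  have hinv : ∀ᵐ x ∂nu, F (π (x + a)) = lam * F (π x) := by
    filter_upwards [ae_of_ae_map hπ.aemeasurable (h2.ae_le hFS), hcomm] with x h3 h4
    rw [← h3, ← h4]; rfl
  have hB : ∀ x, ‖F (π x)‖ ≤ 1 := by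
    intro x
    rw [hFn, div_le_one (hpos _)]
    linarith
  rcases eig (g := fun x => F (π x)) (hFm.comp hπ) hB hl hinv with h0 | ⟨m, A, hm, hA⟩
  · exact hconF 0 (tr hπ h1 (hFm (measurableSet_singleton 0)) h0)
  · by_cases hm0 : m = 0
    · subst hm0
      apply hconF A
      apply tr hπ h1 (hFm (measurableSet_singleton A))
      filter_upwards [hA] with x hx
      rw [hx, fourier_zero, mul_one]
      exact mem_singleton _
    · have hA0 : A ≠ 0 := by
        rintro rfl
        apply hconF 0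
        apply tr hπ h1 (hFm (measurableSet_singleton 0))
        filter_upwards [hA] with x hx
        rw [hx, zero_mul]
        exact mem_singleton _
      set G : Y → ℂ := fun y => A⁻¹ * F y with hG
      have hGm : Measurable G := hFm.const_mul _
      have hGπ : ∀ᵐ x ∂nu, G (π x) = fourier m x := by
        filter_upwards [hA] with x hx
        simp only [hG]
        rw [hx, ← mul_assoc, inv_mul_cancel₀ hA0, one_mul]
      have hG1 : ∀ᵐ y ∂ν, ‖G y‖ = 1 := by
        apply tr hπ h1 (hGm.norm (measurableSet_singleton 1))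
        filter_upwards [hGπ] with x hx
        rw [hx, four_norm]
        exact mem_singleton _
      have hGS : ∀ᵐ y ∂ν, G (S y) = fourier m a * G y := by
        filter_upwards [hFS] with y hy
        simp only [hG]
        rw [hy, hm]; ring
      have hlaw := law hS hGm hm0 hG1 hGS
      set W : Set ℂ := ⋃ j : ℤ, (fun t : UnitAddCircle => (fourier 1 t : ℂ)) '' (E m j) with hW
      have hWm : MeasurableSet W := MeasurableSet.iUnion fun j =>
        ((E_compact m j).image (map_continuous (fourier 1))).measurableSet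
      have h5 : ∀ᵐ y ∂ν, G y ∈ W := by
        apply tr hπ h1 (hGm hWm)
        filter_upwards [hGπ, nu_E m] with x hx hxE
        rw [hx, ← four_one_smul]
        obtain ⟨j, hj⟩ := mem_iUnion.1 hxE
        exact mem_iUnion.2 ⟨j, _, hj, rfl⟩
      have h6 : (ν.map G) Wᶜ = 0 := by
        rw [Measure.map_apply hGm hWm.compl, measure_eq_zero_iff_ae_notMem]
        filter_upwards [h5] with y hy hy2
        exact hy2 hy
      have h7 : (ν.map G) W = 0 := by
        rw [hlaw, Measure.map_apply (four_meas 1) hWm]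
        have : (fun t : UnitAddCircle => (fourier 1 t : ℂ)) ⁻¹' W = ⋃ j : ℤ, E m j := by
          rw [hW, preimage_iUnion]
          congr 1
          funext j
          exact preimage_image_eq _ four_one_inj
        rw [this]
        exact vol_UE m
      haveI : IsProbabilityMeasure (ν.map G) := Measure.isProbabilityMeasure_map hGm.aemeasurable
      have h8 := measure_add_measure_compl (μ := ν.map G) hWm
      rw [h6, h7, measure_univ] at h8
      simp at h8

end fac

end H83WM
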